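import Mathlib
import Pool.Agent.H15.GD

/-!
A graph of minimum degree two whose bnr-independence number exceeds its upper broadcast
domination number.
-/

namespace Pool.Agent.Results.MP_99edab_co.Twins

open Finset

variable {V : Type} [DecidableEq V] (ρ : V → V → ℕ)

/-- A broadcast (for the distance function `ρ`): `f v` is at most the eccentricity of `v`. -/
def Bc (f : V → ℕ) : Prop := ∀ v, ∃ u, f v ≤ ρ u v

/-- The vertex `u` hears `f`. -/
def Hears (f : V → ℕ) (u : V) : Prop := ∃ v, 0 < f v ∧ ρ u v ≤ f v

/-- A minimal dominating broadcast. -/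
def MinDom (f : V → ℕ) : Prop := Bc ρ f ∧ (∀ u, Hears ρ f u) ∧
  ∀ g, Bc ρ g → g ≤ f → g ≠ f → ¬ ∀ u, Hears ρ g u

/-- Boundary independence. -/
def BN (f : V → ℕ) : Prop := ∀ u v, u ≠ v → 0 < f u → 0 < f v →
  ∀ w, ρ w u ≤ f u → ρ w v ≤ f v → ρ w u = f u ∧ ρ w v = f v

/-- Irredundance: every broadcasting vertex has a nonempty private boundary. -/
def Irr (f : V → ℕ) : Prop := ∀ v, 0 < f v →
  ∃ u, ρ u v ≤ f v ∧ ¬ Hears ρ (Function.update f v (f v - 1)) u

lemma irr_of {f : V → ℕ} (h : MinDom ρ f) : Irr ρ f := by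
  intro v hv
  have hle : Function.update f v (f v - 1) ≤ f := update_le_iff.2 ⟨by omega, fun _ _ => le_rfl⟩
  obtain ⟨u, hu⟩ := not_forall.1 (h.2.2 _ (fun w => (h.1 w).imp fun _ e => (hle w).trans e) hle
    fun e => by have := congrFun e v; simp at this; omega)
  obtain ⟨w, h1, h2⟩ := h.2.1 u
  by_cases e : w = v
  · exact ⟨u, e ▸ h2, hu⟩
  · exact absurd ⟨w, by simpa [e] using h1, by simpa [e] using h2⟩ hu

def d (a b : Fin 12) : ℕ := (0xe24cb70b61949b2d28c266365a4502522894990914c968941a4512e24c370b6da2986d165949b0d28ca66361a29928a4c2691259490 >>>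
  (3 * (12 * a.val + b.val))) % 8

def G : SimpleGraph (Fin 12) where
  Adj a b := d a b = 1
  symm := ⟨by decide +kernel⟩
  loopless := ⟨by decide +kernel⟩

instance : DecidableRel G.Adj := fun a b => inferInstanceAs (Decidable (d a b = 1))

def irrL (L : List (Fin 12 × ℕ)) : Bool := L.all fun p => (List.finRange 12).any fun u =>
  d u p.1 ≤ p.2 && (p.2 ≤ 1 || p.2 ≤ d u p.1) && L.all fun q => q.1 == p.1 || q.2 < d u q.1

def go : List (Fin 12) → List (Fin 12 × ℕ) → ℕ → Bool
  | [], L, s => s ≤ 4 || (List.finRange 12).any fun u => L.all fun q => q.2 < d u q.1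
  | v :: l, L, s => go l L s && [1, 2, 3, 4].all fun r =>
      !irrL ((v, r) :: L) || go l ((v, r) :: L) (s + r)

lemma go_ok (g : Fin 12 → ℕ) (h1 : Irr d g) (h2 : ∀ u, Hears d g u) (h3 : ∀ v, g v ≤ 4) :
    ∀ l L s, go l L s = true → (∀ p ∈ L, g p.1 = p.2 ∧ 0 < p.2) →
      (∀ v, 0 < g v → v ∈ l ∨ (v, g v) ∈ L) → s + (l.map g).sum ≤ 4 := by
  intro l
  induction l with
  | nil =>
    intro L s h _ b
    simp only [go, Bool.or_eq_true, decide_eq_true_eq, List.any_eq_true, List.all_eq_true] at h
    rcases h with h | ⟨u, -, h⟩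
    · simpa using h
    · obtain ⟨v, e1, e2⟩ := h2 u
      have := h _ ((b v e1).resolve_left (by simp))
      simp only at this
      omega
  | cons v l ih =>
    intro L s h a b
    simp only [go, Bool.and_eq_true, List.all_eq_true, Bool.or_eq_true, Bool.not_eq_true'] at h
    rw [List.map_cons, List.sum_cons]
    by_cases hv : g v = 0
    · rw [hv, zero_add]
      refine ih L s h.1 a fun w hw => (b w hw).imp_left fun e => ?_
      rcases List.mem_cons.1 e with rfl | e
      exacts [by omega, e]
    · have a' : ∀ p ∈ (v, g v) :: L, g p.1 = p.2 ∧ 0 < p.2 := by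
        intro p hp
        rcases List.mem_cons.1 hp with rfl | hp
        exacts [⟨rfl, Nat.pos_of_ne_zero hv⟩, a p hp]
      rcases h.2 (g v) (by have := h3 v; simp only [List.mem_cons]; omega) with h | h
      · refine absurd ?_ (Bool.eq_false_iff.1 h)
        generalize (v, g v) :: L = M at a'
        simp only [irrL, List.all_eq_true, List.any_eq_true, Bool.and_eq_true, Bool.or_eq_true,
          decide_eq_true_eq, beq_iff_eq]
        intro p hp
        obtain ⟨e1, e2⟩ := a' p hp
        obtain ⟨u, u1, u2⟩ := h1 p.1 (by omega)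
        simp only [Hears, not_exists, not_and, not_le] at u2
        refine ⟨u, List.mem_finRange u, ⟨by omega, ?_⟩, fun q hq => ?_⟩
        · have := u2 p.1
          simp only [Function.update_self] at this
          omega
        · refine (em _).imp_right fun e => ?_
          have := u2 q.1
          have := a' q hq
          simp only [Function.update_of_ne e] at *
          omega
      · rw [← add_assoc]
        refine ih _ _ h a' fun w hw => ?_
        rcases b w hw with e | e
        · rcases List.mem_cons.1 e with rfl | e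
          exacts [.inr List.mem_cons_self, .inl e]
        · exact .inr (List.mem_cons_of_mem _ e)

set_option synthInstance.maxSize 2000 in
/-- A connected graph of minimum degree at least two with a bn-independent irredundant
broadcast heavier than every minimal dominating broadcast. -/
theorem result : ∃ (n : ℕ) (Γ : SimpleGraph (Fin n)), Γ.Connected ∧
    (∀ v, 2 ≤ (Γ.neighborSet v).ncard) ∧ ∃ f, Bc Γ.dist f ∧ BN Γ.dist f ∧ Irr Γ.dist f ∧
      ∀ g, MinDom Γ.dist g → ∑ v, g v < ∑ v, f v := by
  obtain ⟨c, hd⟩ := Pool.Agent.H15.GD.table (G := G) d (by decide +kernel) (by decide +kernel)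
    (by decide +kernel)
  have e : G.dist = d := funext₂ hd
  refine ⟨12, G, c, fun v => ?_, ![0, 0, 2, 1, 0, 2, 0, 0, 0, 0, 0, 0], ?_⟩
  · rw [← G.coe_neighborFinset, Set.ncard_coe_finset]
    revert v
    decide +kernel
  rw [e]
  refine ⟨by unfold Bc; decide +kernel, by unfold BN; decide +kernel,
    by unfold Irr Hears; decide +kernel, fun g hg => ?_⟩
  have h4 : ∀ a b, d a b ≤ 4 := by decide +kernel
  have := go_ok g (irr_of d hg) hg.2.1 (fun v => (hg.1 v).elim fun u e => e.trans (h4 u v))
    (List.finRange 12) [] 0 (by decide +kernel) (by simp) fun v _ => .inl (List.mem_finRange v)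
  rw [zero_add, ← List.ofFn_eq_map, List.sum_ofFn] at this
  exact this.trans_lt (by decide)

end Pool.Agent.Results.MP_99edab_co.Twins
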